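import Pool.Agent.W869.AV.Wrap

/-!
# Isomorphisms between quotients of two power sets
-/

set_option autoImplicit false
set_option linter.unusedSectionVars false
set_option linter.unusedVariables false
set_option linter.style.haveILetI false

universe u

namespace Pool.Agent.W869.AV

open Set
open Cardinal hiding univ

section Card

variable {κ : Cardinal.{u}} {Λ : Type u} [Fact (ℵ₀ ≤ κ)]

/-- If the automorphism is trivial on the subsets of size `κ` of the preimage of a set of size at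
most `κ` then the preimage has size at most `κ`. -/
theorem card_G_local (hκ : ℵ₀ ≤ κ) {π : Aut κ Λ} {V : Set Λ}
    (hπ : ∀ Y ⊆ π.G V, #Y = κ → Tr π Y) (hV : #V ≤ κ) : #(π.G V) ≤ κ := by
  classical
  by_contra hcon
  obtain ⟨S, hS, hd, hSc⟩ := exists_many hκ hcon
  obtain ⟨E, hE⟩ := family_fun hκ (π := π) (P := fun _ _ => True) hd (by
    intro Y hY
    obtain ⟨e, he⟩ := hπ Y (hS Y hY).1 (hS Y hY).2
    exact ⟨(hS Y hY).2, e, he, fun _ _ => trivial⟩)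
  obtain ⟨v, hv⟩ := exists_rank hκ hV
  let g : Λ → L₀ κ := fun x => v (E x)
  let N : Set Λ := {y | ∀ n, y ∉ π.F {x | g x = n}}
  have hex : ∀ y, ∃ n : L₀ κ, y ∉ N →
      y ∈ π.F {x | g x = n} ∧ ∀ m, y ∈ π.F {x | g x = m} → n ≤ m := by
    intro y
    by_cases hy : y ∈ N
    · exact ⟨v y, fun h => (h hy).elim⟩
    · have h1 : {n | y ∈ π.F {x | g x = n}}.Nonempty := by
        by_contra h2
        rw [not_nonempty_iff_eq_empty] at h2
        exact hy fun n hn => (h2 ▸ (show n ∈ {n | y ∈ π.F {x | g x = n}} from hn) :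
          n ∈ (∅ : Set (L₀ κ)))
      exact ⟨(wellFounded_lt (α := L₀ κ)).min _ h1, fun _ =>
        ⟨(wellFounded_lt (α := L₀ κ)).min_mem _ h1, fun m hm =>
          not_lt.1 ((wellFounded_lt (α := L₀ κ)).not_lt_min _ hm)⟩⟩
  choose g' hg' using hex
  have hNF : ∀ n y, y ∈ π.F {x | g x = n} → y ∉ N := fun n y hy h => h n hy
  have hb : ∀ Z : L₀ κ → Set Λ, (∀ m, Sm κ (Z m)) → (∀ m, ∀ y ∈ Z m, g' y = m ∧ y ∉ N) →
      #(π.G (N ∪ ⋃ m, Z m)) ≤ κ := by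
    intro Z hZ hZ'
    refine card_of_trace hκ mk_L₀_le g fun n => ?_
    refine sm_mono (t := ⋃ m : Iic n, Z m.1) ?_ (sm_iUnion hκ (mk_Iic_L₀ hκ n) _ fun m => hZ m.1)
    rintro y ⟨hy | hy, hyF⟩
    · exact (hNF n y hyF hy).elim
    · obtain ⟨m, hm⟩ := mem_iUnion.1 hy
      have h1 := (hg' y (hZ' m y hm).2).2 n hyF
      rw [(hZ' m y hm).1] at h1
      exact mem_iUnion.2 ⟨⟨m, h1⟩, hm⟩
  have h1 := few_down hκ (fun y hy => (hg' y hy).1) hb hd (fun Y hY => (hE Y hY).1)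
  let Q : Set Λ := {y ∈ V | v y ≤ g' y}
  have hQ : #(π.G Q) ≤ κ := by
    refine card_of_trace hκ mk_L₀_le g fun n => sm_mono ?_ (hv n)
    rintro y ⟨⟨hy, hyv⟩, hyF⟩
    exact ⟨hy, hyv.trans ((hg' y (hNF n y hyF)).2 n hyF)⟩
  have h2 := few_meet hκ hd hQ
  apply hSc
  refine (Cardinal.mk_le_mk_of_subset (t := {Y ∈ S | ¬ Sm κ {x ∈ Y | g' (E x) < g x}} ∪
    {Y ∈ S | (Y ∩ π.G Q).Nonempty}) ?_).trans ((Cardinal.mk_union_le _ _).trans
    ((add_le_add h1 h2).trans (Cardinal.add_eq_self hκ).le))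
  intro Y hY
  by_cases h3 : Sm κ {x ∈ Y | g' (E x) < g x}
  · refine Or.inr ⟨hY, ?_⟩
    by_contra h4
    have h5 := (hE Y hY).1.side' hκ V
    have h6 := (hE Y hY).1.side' hκ Q
    refine not_small_of (hS Y hY).2 (sm_mono ?_ (sm_union hκ h3 (sm_union hκ h5 h6)))
    intro x hx
    have h7 : x ∉ π.G Q := fun h => h4 ⟨x, hx, h⟩
    have h8 : x ∈ π.G V := (hS Y hY).1 hx
    by_cases h9 : g' (E x) < g x
    · exact Or.inl ⟨hx, h9⟩
    · by_cases h10 : E x ∈ V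
      · refine Or.inr (Or.inr ⟨hx, fun h => h7 (h.2 ⟨h10, not_lt.1 h9⟩)⟩)
      · exact Or.inr (Or.inl ⟨hx, fun h => h10 (h.1 h8)⟩)
  · exact Or.inl ⟨hY, h3⟩

end Card

section Sum

variable {κ : Cardinal.{u}} {Λ Λ' : Type u}

theorem sm_val_sum (hκ : ℵ₀ ≤ κ) {A : Set (Λ ⊕ Λ')} :
    Sm κ A ↔ Sm κ (Sum.inl ⁻¹' A) ∧ Sm κ (Sum.inr ⁻¹' A) := by
  constructor
  · intro h
    exact ⟨(Cardinal.mk_preimage_of_injective _ _ Sum.inl_injective).trans_lt h,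
      (Cardinal.mk_preimage_of_injective _ _ Sum.inr_injective).trans_lt h⟩
  · rintro ⟨h1, h2⟩
    have h3 : A ⊆ Sum.inl '' (Sum.inl ⁻¹' A) ∪ Sum.inr '' (Sum.inr ⁻¹' A) := by
      rintro (x | x) hx
      · exact Or.inl ⟨x, hx, rfl⟩
      · exact Or.inr ⟨x, hx, rfl⟩
    exact sm_mono h3 (sm_union hκ (sm_image _ h1) (sm_image _ h2))

theorem al_sum (hκ : ℵ₀ ≤ κ) {A B : Set (Λ ⊕ Λ')} :
    Al κ A B ↔ Al κ (Sum.inl ⁻¹' A) (Sum.inl ⁻¹' B) ∧ Al κ (Sum.inr ⁻¹' A) (Sum.inr ⁻¹' B) :=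
  sm_val_sum hκ

/-- The automorphism of the sum given by an isomorphism and its inverse. -/
def swap (F : Set Λ → Set Λ') (G : Set Λ' → Set Λ) (A : Set (Λ ⊕ Λ')) : Set (Λ ⊕ Λ') :=
  Sum.inl '' G (Sum.inr ⁻¹' A) ∪ Sum.inr '' F (Sum.inl ⁻¹' A)

theorem swap_inl {F : Set Λ → Set Λ'} {G : Set Λ' → Set Λ} {A : Set (Λ ⊕ Λ')} :
    Sum.inl ⁻¹' swap F G A = G (Sum.inr ⁻¹' A) := by
  ext x
  constructor
  · rintro (⟨y, hy, hxy⟩ | ⟨y, hy, hxy⟩)
    · rw [← Sum.inl_injective hxy]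
      exact hy
    · cases hxy
  · intro hx
    exact Or.inl ⟨x, hx, rfl⟩

theorem swap_inr {F : Set Λ → Set Λ'} {G : Set Λ' → Set Λ} {A : Set (Λ ⊕ Λ')} :
    Sum.inr ⁻¹' swap F G A = F (Sum.inl ⁻¹' A) := by
  ext x
  constructor
  · rintro (⟨y, hy, hxy⟩ | ⟨y, hy, hxy⟩)
    · cases hxy
    · rw [← Sum.inr_injective hxy]
      exact hy
  · intro hx
    exact Or.inr ⟨x, hx, rfl⟩

variable {hκ : ℵ₀ ≤ κ}

/-- The isomorphism is trivial on `C`: there are a set `D` in the image of the class of `C`,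
subsets `C'` of `C` and `D'` of `D` with `C \ C'` and `D \ D'` in the ideals, and a bijection `e`
from `D'` to `C'` such that the class of each subset `X` of `C'` is mapped to the class of the
preimage of `X` under `e`. -/
def IsTrivialIso (φ : Quo κ hκ Λ ≃o Quo κ hκ Λ') (C : Set Λ) : Prop :=
  ∃ D : Set Λ', φ (cls hκ C) = cls hκ D ∧
    ∃ C' ⊆ C, AlmostSub κ C C' ∧ ∃ D' ⊆ D, AlmostSub κ D D' ∧
      ∃ e : D' ≃ C', ∀ X : Set C',
        φ (cls hκ (Subtype.val '' X)) = cls hκ (Subtype.val '' (e ⁻¹' X))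

theorem exists_swap (φ : Quo κ hκ Λ ≃o Quo κ hκ Λ') :
    ∃ (F : Set Λ → Set Λ') (G : Set Λ' → Set Λ) (ρ : Aut κ (Λ ⊕ Λ')),
      (∀ A, φ (cls hκ A) = cls hκ (F A)) ∧ (∀ B, φ.symm (cls hκ B) = cls hκ (G B)) ∧
        ρ.F = swap F G ∧ ρ.G = swap F G := by
  choose rep hrep using fun q : Quo κ hκ Λ => exists_cls q
  choose rep' hrep' using fun q : Quo κ hκ Λ' => exists_cls q
  let F : Set Λ → Set Λ' := fun A => rep' (φ (cls hκ A))
  let G : Set Λ' → Set Λ := fun B => rep (φ.symm (cls hκ B))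
  have hF : ∀ A, φ (cls hκ A) = cls hκ (F A) := fun A => (hrep' _).symm
  have hG : ∀ B, φ.symm (cls hκ B) = cls hκ (G B) := fun B => (hrep _).symm
  have hFle : ∀ A B, Al κ A B ↔ Al κ (F A) (F B) := by
    intro A B
    rw [← cls_le_iff (hκ := hκ), ← cls_le_iff (hκ := hκ), ← hF, ← hF, φ.le_iff_le]
  have hGle : ∀ A B, Al κ A B ↔ Al κ (G A) (G B) := by
    intro A B
    rw [← cls_le_iff (hκ := hκ), ← cls_le_iff (hκ := hκ), ← hG, ← hG, φ.symm.le_iff_le]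
  have hFG : ∀ B, cls hκ (F (G B)) = cls hκ B := by
    intro B
    rw [← hF, ← hG, φ.apply_symm_apply]
  have hGF : ∀ A, cls hκ (G (F A)) = cls hκ A := by
    intro A
    rw [← hG, ← hF, φ.symm_apply_apply]
  have hswap : ∀ B, Al κ (swap F G (swap F G B)) B ∧ Al κ B (swap F G (swap F G B)) := by
    intro B
    rw [al_sum hκ, al_sum hκ, swap_inl, swap_inr, swap_inr, swap_inl]
    have h1 := cls_eq_iff.1 (hFG (Sum.inr ⁻¹' B))
    have h2 := cls_eq_iff.1 (hGF (Sum.inl ⁻¹' B))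
    exact ⟨⟨h2.1, h1.1⟩, ⟨h2.2, h1.2⟩⟩
  refine ⟨F, G, ⟨swap F G, swap F G, fun A B => ?_, fun B => (hswap B).1, fun B => (hswap B).2⟩,
    hF, hG, rfl, rfl⟩
  rw [al_sum hκ, al_sum hκ, swap_inl, swap_inr, swap_inl, swap_inr, ← hFle, ← hGle]
  exact and_comm

variable [Fact (ℵ₀ ≤ κ)]

theorem tr_of_trivialIso {φ : Quo κ hκ Λ ≃o Quo κ hκ Λ'} {F : Set Λ → Set Λ'}
    {G : Set Λ' → Set Λ} {ρ : Aut κ (Λ ⊕ Λ')} (hF : ∀ A, φ (cls hκ A) = cls hκ (F A))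
    (hG : ∀ B, φ.symm (cls hκ B) = cls hκ (G B)) (hρ : ρ.F = swap F G) {C : Set Λ}
    (h : IsTrivialIso φ C) : Tr ρ (Sum.inl '' C) := by
  classical
  obtain ⟨D, -, C', hC', hCs, D', hD', hDs, e, he⟩ := h
  have hsmall : Sm κ (G ∅) := by
    have h1 : cls hκ (F ∅) = cls hκ (∅ : Set Λ') := by
      rw [← hF]
      have h2 : ∀ q : Quo κ hκ Λ', φ (cls hκ ∅) ≤ q := by
        intro q
        rw [← φ.le_symm_apply]
        obtain ⟨A, hA⟩ := exists_cls (φ.symm q)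
        rw [← hA, cls_le_iff]
        exact Al.of_subset (empty_subset _)
      refine le_antisymm (h2 _) ?_
      obtain ⟨A, hA⟩ := exists_cls (φ (cls hκ (∅ : Set Λ)))
      rw [← hA, cls_le_iff]
      exact Al.of_subset (empty_subset _)
    have h3 : cls hκ (G ∅) = cls hκ (∅ : Set Λ) := by
      rw [← hG, OrderIso.symm_apply_eq, hF, h1]
    exact (cls_eq_iff.1 h3).1.small hκ sm_empty
  -- the inducing function
  obtain ⟨s, hs⟩ : ∃ s : Λ ⊕ Λ' → Λ ⊕ Λ', ∀ x (hx : x ∈ C'),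
      s (Sum.inl x) = Sum.inr ((e.symm ⟨x, hx⟩ : D') : Λ') := by
    refine ⟨fun z => Sum.elim (fun x => if h : x ∈ C' then
      Sum.inr ((e.symm ⟨x, h⟩ : D') : Λ') else z) (fun _ => z) z, fun x hx => ?_⟩
    show (if h : x ∈ C' then Sum.inr ((e.symm ⟨x, h⟩ : D') : Λ') else (Sum.inl x : Λ ⊕ Λ')) = _
    rw [dif_pos hx]
  have h1 : Good ρ s (Sum.inl '' C') := by
    intro A hA
    have hA1 : ∀ x, Sum.inl x ∈ A → x ∈ C' := by
      intro x hx
      obtain ⟨y, hy, hxy⟩ := hA hx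
      rw [← Sum.inl_injective hxy]
      exact hy
    have hA2 : Sum.inr ⁻¹' A = (∅ : Set Λ') := by
      ext y
      simp only [mem_preimage, mem_empty_iff_false, iff_false]
      intro hy
      obtain ⟨z, hz, hyz⟩ := hA hy
      cases hyz
    have h2 := he {x : C' | Sum.inl x.1 ∈ A}
    have h3 : Subtype.val '' {x : C' | (Sum.inl x.1 : Λ ⊕ Λ') ∈ A} = Sum.inl ⁻¹' A := by
      ext x
      constructor
      · rintro ⟨y, hy, rfl⟩
        exact hy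
      · intro hx
        exact ⟨⟨x, hA1 x hx⟩, hx, rfl⟩
    have h4 : Subtype.val '' (e ⁻¹' {x : C' | (Sum.inl x.1 : Λ ⊕ Λ') ∈ A}) =
        Sum.inr ⁻¹' (s '' A) := by
      ext y
      constructor
      · rintro ⟨b, hb, rfl⟩
        refine ⟨Sum.inl (e b).1, hb, ?_⟩
        rw [hs _ (e b).2]
        congr 2
        exact e.symm_apply_apply b
      · rintro ⟨z, hz, hzy⟩
        obtain ⟨x, hx, rfl⟩ := hA hz
        rw [hs x hx] at hzy
        refine ⟨e.symm ⟨x, hx⟩, ?_, Sum.inr_injective hzy⟩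
        show (Sum.inl (e (e.symm ⟨x, hx⟩)).1 : Λ ⊕ Λ') ∈ A
        rw [e.apply_symm_apply]
        exact hz
    have h5 : Sum.inl ⁻¹' (s '' A) = (∅ : Set Λ) := by
      ext y
      simp only [mem_preimage, mem_empty_iff_false, iff_false]
      rintro ⟨z, hz, hzy⟩
      obtain ⟨x, hx, rfl⟩ := hA hz
      rw [hs x hx] at hzy
      cases hzy
    rw [h3, h4, hF, cls_eq_iff] at h2
    rw [hρ, al_sum hκ, al_sum hκ, swap_inl, swap_inr, h5, hA2]
    exact ⟨⟨Al.of_small hsmall, h2.1⟩, ⟨Al.of_subset (empty_subset _), h2.2⟩⟩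
  have h2 : Sm κ (Sum.inl '' (C \ C') : Set (Λ ⊕ Λ')) := sm_image _ hCs
  obtain ⟨s', hs'⟩ := h1.glue hκ (good_of_small (e := id) hκ h2)
  refine ⟨s', hs'.mono ?_⟩
  rintro _ ⟨x, hx, rfl⟩
  by_cases h3 : x ∈ C'
  · exact Or.inl ⟨x, h3, rfl⟩
  · exact Or.inr ⟨x, ⟨hx, h3⟩, rfl⟩

end Sum

variable {κ : Cardinal.{u}} {Λ Λ' : Type u} {hκ : ℵ₀ ≤ κ}

/-- The main theorem for isomorphisms. -/
theorem exists_nontrivial (hΛ' : #Λ' ≤ κ) (φ : Quo κ hκ Λ ≃o Quo κ hκ Λ') (A : Set Λ)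
    (hA : κ < #A) : ∃ C ⊆ A, #C = κ ∧ ¬ IsTrivialIso φ C := by
  by_contra hcon
  push Not at hcon
  have : Fact (ℵ₀ ≤ κ) := ⟨hκ⟩
  obtain ⟨F, G, ρ, hF, hG, hρF, hρG⟩ := exists_swap φ
  let V : Set (Λ ⊕ Λ') := Sum.inr '' F A
  have hV : #V ≤ κ := (Cardinal.mk_image_le.trans (Cardinal.mk_set_le _)).trans hΛ'
  have h1 : ρ.G V ⊆ Sum.inl '' G (F A) ∪ Sum.inr '' F ∅ := by
    rw [hρG]
    have h2 : (Sum.inr ⁻¹' V : Set Λ') = F A := Set.preimage_image_eq _ Sum.inr_injective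
    have h3 : (Sum.inl ⁻¹' V : Set Λ) = ∅ := by
      ext x
      simp only [mem_preimage, mem_empty_iff_false, iff_false]
      rintro ⟨y, hy, hxy⟩
      cases hxy
    rw [swap, h2, h3]
  have h2 : Sum.inl '' G (F A) ⊆ ρ.G V := by
    rw [hρG]
    have h2 : (Sum.inr ⁻¹' V : Set Λ') = F A := Set.preimage_image_eq _ Sum.inr_injective
    rw [swap, h2]
    exact subset_union_left
  have h3 : cls hκ (G (F A)) = cls hκ A := by
    rw [← hG, ← hF, φ.symm_apply_apply]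
  have h4 := cls_eq_iff.1 h3
  have h5 : Sm κ (F ∅) := by
    have h6 : Sm κ (ρ.F ∅) := (ρ.small_iff hκ ∅).1 sm_empty
    rw [hρF, sm_val_sum hκ, swap_inr] at h6
    exact h6.2
  have h6 : #(ρ.G V) ≤ κ := by
    refine card_G_local hκ (fun Y hY hYc => ?_) hV
    -- the part of `Y` in `A`
    let C : Set Λ := {x ∈ A | Sum.inl x ∈ Y}
    have h7 : Sm κ (Y \ Sum.inl '' C : Set (Λ ⊕ Λ')) := by
      refine sm_mono (t := Sum.inl '' (G (F A) \ A) ∪ Sum.inr '' F ∅) ?_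
        (sm_union hκ (sm_image _ h4.1) (sm_image _ h5))
      rintro z ⟨hz, hz'⟩
      rcases h1 (hY hz) with ⟨x, hx, rfl⟩ | h
      · refine Or.inl ⟨x, ⟨hx, fun hxA => hz' ⟨x, ⟨hxA, hz⟩, rfl⟩⟩, rfl⟩
      · exact Or.inr h
    have h8 : ¬ Sm κ (Sum.inl '' C : Set (Λ ⊕ Λ')) := by
      intro h
      refine not_small_of hYc (sm_mono ?_ (sm_union hκ h7 h))
      intro z hz
      by_cases h9 : z ∈ Sum.inl '' C
      · exact Or.inr h9
      · exact Or.inl ⟨hz, h9⟩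
    have h9 : #C = κ := by
      refine le_antisymm ?_ ?_
      · have h10 : #(Sum.inl '' C : Set (Λ ⊕ Λ')) = #C := Cardinal.mk_image_eq Sum.inl_injective
        rw [← h10, ← hYc]
        refine Cardinal.mk_le_mk_of_subset ?_
        rintro _ ⟨x, hx, rfl⟩
        exact hx.2
      · have h10 : #(Sum.inl '' C : Set (Λ ⊕ Λ')) = #C := Cardinal.mk_image_eq Sum.inl_injective
        rw [← h10]
        exact not_lt.1 h8
    obtain ⟨s, hs⟩ := tr_of_trivialIso hF hG hρF (hcon C (fun x hx => hx.1) h9)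
    obtain ⟨s', hs'⟩ := hs.glue hκ (good_of_small (e := id) hκ h7)
    refine ⟨s', hs'.mono fun z hz => ?_⟩
    by_cases h11 : z ∈ Sum.inl '' C
    · exact Or.inl h11
    · exact Or.inr ⟨hz, h11⟩
  have h7 : #A ≤ κ := by
    refine card_al hκ h4.2 ?_
    have h8 : #(Sum.inl '' G (F A) : Set (Λ ⊕ Λ')) = #(G (F A)) :=
      Cardinal.mk_image_eq Sum.inl_injective
    rw [← h8]
    exact (Cardinal.mk_le_mk_of_subset h2).trans h6
  exact not_lt.2 h7 hA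

end Pool.Agent.W869.AV
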