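import Pool.Agent.Helper669.KDelta

/-!
# Sets of cardinality less than an infinite cardinal
-/

set_option autoImplicit false

universe u

namespace Pool.Agent.W869.AV

open Set
open Cardinal hiding univ

variable {κ : Cardinal.{u}}

/-- Small sets. -/
def Sm (κ : Cardinal.{u}) {A : Type u} (s : Set A) : Prop := #s < κ

theorem sm_union {A : Type u} (hκ : ℵ₀ ≤ κ) {s t : Set A} (hs : Sm κ s) (ht : Sm κ t) :
    Sm κ (s ∪ t) :=
  (Cardinal.mk_union_le s t).trans_lt (Cardinal.add_lt_of_lt hκ hs ht)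

theorem sm_mono {A : Type u} {s t : Set A} (h : s ⊆ t) (ht : Sm κ t) : Sm κ s :=
  (Cardinal.mk_le_mk_of_subset h).trans_lt ht

theorem sm_image {A B : Type u} (f : A → B) {s : Set A} (hs : Sm κ s) : Sm κ (f '' s) :=
  Cardinal.mk_image_le.trans_lt hs

theorem sm_empty [Fact (ℵ₀ ≤ κ)] {A : Type u} : Sm κ (∅ : Set A) := by
  rw [Sm, Cardinal.mk_eq_zero]
  exact Cardinal.aleph0_pos.trans_le Fact.out

theorem sm_singleton (hκ : ℵ₀ ≤ κ) {A : Type u} (a : A) : Sm κ ({a} : Set A) := by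
  rw [Sm, Cardinal.mk_singleton]
  exact Cardinal.one_lt_aleph0.trans_le hκ

/-- Unions of fewer than `cof κ` small sets are small. -/
theorem sm_iUnion (hκ : ℵ₀ ≤ κ) {A J : Type u} (hJ : #J < κ.ord.cof) (s : J → Set A)
    (hs : ∀ j, Sm κ (s j)) : Sm κ (⋃ j, s j) := by
  refine (Cardinal.mk_iUnion_le _).trans_lt (Cardinal.mul_lt_of_lt hκ ?_ ?_)
  · exact hJ.trans_le ((Ordinal.cof_le_card _).trans (Cardinal.card_ord κ).le)
  · exact Cardinal.iSup_lt_of_lt_cof_ord hJ hs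

end Pool.Agent.W869.AV
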