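import Pool.Agent.W869.AV.Down

/-!
# Preimages of sets of size `κ` have size at most `κ`
-/

set_option autoImplicit false
set_option linter.unusedSectionVars false
set_option linter.unusedVariables false
set_option linter.style.haveILetI false

universe u

namespace Pool.Agent.W869.AV

open Set
open Cardinal hiding univ

variable {κ : Cardinal.{u}} {Λ : Type u} [Fact (ℵ₀ ≤ κ)]

/-- The index set of a short cofinal sequence. -/
def L₀ (κ : Cardinal.{u}) : Type u := (κ.ord.cof).ord.ToType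

noncomputable instance : LinearOrder (L₀ κ) := inferInstanceAs (LinearOrder (κ.ord.cof).ord.ToType)

instance : WellFoundedLT (L₀ κ) := inferInstanceAs (WellFoundedLT (κ.ord.cof).ord.ToType)

theorem mk_L₀ : #(L₀ κ) = κ.ord.cof := Cardinal.mk_ord_toType _

theorem type_L₀ : (#(L₀ κ)).ord = Ordinal.type (fun x y : L₀ κ => x < y) := by
  rw [mk_L₀]
  exact (Ordinal.type_toType _).symm

theorem mk_L₀_le : #(L₀ κ) ≤ κ := by
  rw [mk_L₀]
  exact (Ordinal.cof_le_card _).trans (Cardinal.card_ord κ).le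

theorem aleph0_le_cof (hκ : ℵ₀ ≤ κ) : ℵ₀ ≤ κ.ord.cof :=
  (Cardinal.isRegular_cof (Cardinal.isSuccLimit_ord hκ)).aleph0_le

theorem mk_Iic_L₀ (hκ : ℵ₀ ≤ κ) (n : L₀ κ) : #(Iic n) < κ.ord.cof := by
  have h := Cardinal.mk_Iic_lt n type_L₀ (by rw [mk_L₀]; exact aleph0_le_cof hκ)
  rwa [mk_L₀] at h

/-- Sets of size at most `κ` are short unions of small sets. -/
theorem exists_rank (hκ : ℵ₀ ≤ κ) {V : Set Λ} (hV : #V ≤ κ) :
    ∃ v : Λ → L₀ κ, ∀ n, Sm κ {y ∈ V | v y ≤ n} := by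
  classical
  obtain ⟨I, hI, hIc⟩ := Order.exists_cof_eq κ.ord.ToType
  rw [Ordinal.cof_toType] at hIc
  have h1 : #I = #(L₀ κ) := by rw [hIc, mk_L₀]
  obtain ⟨b⟩ := Cardinal.eq.1 h1
  have h2 : #V ≤ #(κ.ord.ToType) := by rw [Cardinal.mk_ord_toType]; exact hV
  obtain ⟨r⟩ := h2
  have hne : Nonempty (L₀ κ) := by
    rw [← Cardinal.mk_ne_zero_iff, mk_L₀]
    exact (Cardinal.aleph0_pos.trans_le (aleph0_le_cof hκ)).ne'
  have h3 : ∀ y : V, ∃ n : L₀ κ, r y ≤ (b.symm n).1 := by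
    intro y
    obtain ⟨i, hi, hy⟩ := hI (r y)
    exact ⟨b ⟨i, hi⟩, by rw [Equiv.symm_apply_apply]; exact hy⟩
  choose w hw using h3
  refine ⟨fun y => if h : y ∈ V then w ⟨y, h⟩ else Classical.arbitrary _, fun n => ?_⟩
  refine sm_mono (t := ⋃ m : Iic n, Subtype.val '' {y : V | r y ≤ (b.symm m.1).1}) ?_
    (sm_iUnion hκ (mk_Iic_L₀ hκ n) _ fun m => sm_image _ ?_)
  · rintro y ⟨hy, hyn⟩
    have hyn' : (if h : y ∈ V then w ⟨y, h⟩ else Classical.arbitrary (L₀ κ)) ≤ n := hyn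
    rw [dif_pos hy] at hyn'
    replace hyn := hyn'
    exact mem_iUnion.2 ⟨⟨w ⟨y, hy⟩, hyn⟩, ⟨y, hy⟩, hw ⟨y, hy⟩, rfl⟩
  · have h4 : #(Iic ((b.symm m.1).1 : κ.ord.ToType)) < κ := by
      have h5 := Cardinal.mk_Iic_lt ((b.symm m.1).1 : κ.ord.ToType) (by
        rw [Cardinal.mk_ord_toType]
        exact (Ordinal.type_toType _).symm) (by rw [Cardinal.mk_ord_toType]; exact hκ)
      rwa [Cardinal.mk_ord_toType] at h5
    have h6 : Sm κ (r ⁻¹' Iic ((b.symm m.1).1 : κ.ord.ToType)) := by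
      refine lt_of_le_of_lt ?_ h4
      exact Cardinal.mk_preimage_of_injective _ _ r.injective
    exact h6

section

variable (hκ : ℵ₀ ≤ κ) {π : Aut κ Λ} {E : Λ → Λ}

include hκ

/-- Many sets of size `κ`. -/
theorem exists_many {C : Set Λ} (hC : ¬ #C ≤ κ) :
    ∃ S : Set (Set Λ), (∀ Y ∈ S, Y ⊆ C ∧ #Y = κ) ∧
      (∀ Y ∈ S, ∀ Y' ∈ S, Y ≠ Y' → Disjoint Y Y') ∧ ¬ #S ≤ κ := by
  obtain ⟨S, hS, hd, hmax⟩ := exists_family (fun Y : Set Λ => #Y = κ) C (by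
    intro Y hY
    by_contra hcon
    rw [not_nonempty_iff_eq_empty] at hcon
    apply not_small_of hY
    rw [hcon]
    exact sm_empty)
  refine ⟨S, hS, hd, fun hSc => ?_⟩
  have h1 : #(⋃₀ S : Set Λ) ≤ κ := by
    refine (card_sUnion fun Y hY => (hS Y hY).2.le).trans ?_
    refine (mul_le_mul_left hSc κ).trans ?_
    exact (Cardinal.mul_eq_self hκ).le
  have h2 : ¬ Sm κ (C \ ⋃₀ S) := by
    intro h
    apply hC
    have h3 : #C ≤ #(C \ ⋃₀ S ∪ ⋃₀ S : Set Λ) := Cardinal.mk_le_mk_of_subset (by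
      intro x hx
      by_cases h4 : x ∈ ⋃₀ S
      · exact Or.inr h4
      · exact Or.inl ⟨hx, h4⟩)
    refine h3.trans ((Cardinal.mk_union_le _ _).trans ?_)
    exact (add_le_add h.le h1).trans (Cardinal.add_eq_self hκ).le
  obtain ⟨Y, hY, hYc⟩ := exists_sub h2
  exact hmax Y hYc hY

/-- Preimages of sets of size at most `κ` have size at most `κ`. -/
theorem card_G (hπ : Loc π) {V : Set Λ} (hV : #V ≤ κ) : #(π.G V) ≤ κ := by
  classical
  by_contra hcon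
  obtain ⟨S, hS, hd, hSc⟩ := exists_many hκ hcon
  obtain ⟨E, hE⟩ := family_fun hκ (π := π) (P := fun _ _ => True) hd (by
    intro Y hY
    obtain ⟨e, he⟩ := hπ Y (hS Y hY).2
    exact ⟨(hS Y hY).2, e, he, fun _ _ => trivial⟩)
  obtain ⟨v, hv⟩ := exists_rank hκ hV
  let g : Λ → L₀ κ := fun x => v (E x)
  let N : Set Λ := {y | ∀ n, y ∉ π.F {x | g x = n}}
  have hex : ∀ y, ∃ n : L₀ κ, y ∉ N →
      y ∈ π.F {x | g x = n} ∧ ∀ m, y ∈ π.F {x | g x = m} → n ≤ m := by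
    intro y
    by_cases hy : y ∈ N
    · exact ⟨v y, fun h => (h hy).elim⟩
    · have h1 : {n | y ∈ π.F {x | g x = n}}.Nonempty := by
        by_contra h2
        rw [not_nonempty_iff_eq_empty] at h2
        exact hy fun n hn => (h2 ▸ (show n ∈ {n | y ∈ π.F {x | g x = n}} from hn) :
          n ∈ (∅ : Set (L₀ κ)))
      exact ⟨(wellFounded_lt (α := L₀ κ)).min _ h1, fun _ =>
        ⟨(wellFounded_lt (α := L₀ κ)).min_mem _ h1, fun m hm =>
          not_lt.1 ((wellFounded_lt (α := L₀ κ)).not_lt_min _ hm)⟩⟩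
  choose g' hg' using hex
  have hNF : ∀ n y, y ∈ π.F {x | g x = n} → y ∉ N := fun n y hy h => h n hy
  have hb : ∀ Z : L₀ κ → Set Λ, (∀ m, Sm κ (Z m)) → (∀ m, ∀ y ∈ Z m, g' y = m ∧ y ∉ N) →
      #(π.G (N ∪ ⋃ m, Z m)) ≤ κ := by
    intro Z hZ hZ'
    refine card_of_trace hκ mk_L₀_le g fun n => ?_
    refine sm_mono (t := ⋃ m : Iic n, Z m.1) ?_ (sm_iUnion hκ (mk_Iic_L₀ hκ n) _ fun m => hZ m.1)
    rintro y ⟨hy | hy, hyF⟩
    · exact (hNF n y hyF hy).elim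
    · obtain ⟨m, hm⟩ := mem_iUnion.1 hy
      have h1 := (hg' y (hZ' m y hm).2).2 n hyF
      rw [(hZ' m y hm).1] at h1
      exact mem_iUnion.2 ⟨⟨m, h1⟩, hm⟩
  have h1 := few_down hκ (fun y hy => (hg' y hy).1) hb hd (fun Y hY => (hE Y hY).1)
  let Q : Set Λ := {y ∈ V | v y ≤ g' y}
  have hQ : #(π.G Q) ≤ κ := by
    refine card_of_trace hκ mk_L₀_le g fun n => sm_mono ?_ (hv n)
    rintro y ⟨⟨hy, hyv⟩, hyF⟩
    exact ⟨hy, hyv.trans ((hg' y (hNF n y hyF)).2 n hyF)⟩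
  have h2 := few_meet hκ hd hQ
  apply hSc
  refine (Cardinal.mk_le_mk_of_subset (t := {Y ∈ S | ¬ Sm κ {x ∈ Y | g' (E x) < g x}} ∪
    {Y ∈ S | (Y ∩ π.G Q).Nonempty}) ?_).trans ((Cardinal.mk_union_le _ _).trans
    ((add_le_add h1 h2).trans (Cardinal.add_eq_self hκ).le))
  intro Y hY
  by_cases h3 : Sm κ {x ∈ Y | g' (E x) < g x}
  · refine Or.inr ⟨hY, ?_⟩
    by_contra h4
    have h5 := (hE Y hY).1.side' hκ V
    have h6 := (hE Y hY).1.side' hκ Q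
    refine not_small_of (hS Y hY).2 (sm_mono ?_ (sm_union hκ h3 (sm_union hκ h5 h6)))
    intro x hx
    have h7 : x ∉ π.G Q := fun h => h4 ⟨x, hx, h⟩
    have h8 : x ∈ π.G V := (hS Y hY).1 hx
    by_cases h9 : g' (E x) < g x
    · exact Or.inl ⟨hx, h9⟩
    · by_cases h10 : E x ∈ V
      · refine Or.inr (Or.inr ⟨hx, fun h => h7 (h.2 ⟨h10, not_lt.1 h9⟩)⟩)
      · exact Or.inr (Or.inl ⟨hx, fun h => h10 (h.1 h8)⟩)
  · exact Or.inl ⟨hY, h3⟩

/-- Images of sets of size at most `κ` have size at most `κ`. -/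
theorem card_F (hπ : Loc π) {V : Set Λ} (hV : #V ≤ κ) : #(π.F V) ≤ κ := by
  obtain ⟨e, he⟩ := hπ.le hκ hV
  have h1 := (he V subset_rfl).1
  refine (Cardinal.mk_le_mk_of_subset (t := π.F V \ e '' V ∪ e '' V) ?_).trans
    ((Cardinal.mk_union_le _ _).trans ?_)
  · intro x hx
    by_cases h : x ∈ e '' V
    · exact Or.inr h
    · exact Or.inl ⟨hx, h⟩
  · refine (add_le_add (show #(π.F V \ e '' V : Set Λ) ≤ κ from h1.le)
      (Cardinal.mk_image_le.trans hV)).trans (Cardinal.add_eq_self hκ).le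

end

end Pool.Agent.W869.AV
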