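import Mathlib

/-!
# Automorphisms of quotients of power sets: definitions
-/

set_option autoImplicit false

universe u

namespace Pool.Agent.W869.AV

open Set
open Cardinal hiding univ

variable {κ : Cardinal.{u}} {hκ : ℵ₀ ≤ κ} {Λ : Type u}

/-- The set `A \ B` belongs to the ideal of the sets of cardinality less than `κ`. -/
def AlmostSub (κ : Cardinal.{u}) (A B : Set Λ) : Prop := #(A \ B : Set Λ) < κ

theorem AlmostSub.refl (hκ : ℵ₀ ≤ κ) (A : Set Λ) : AlmostSub κ A A := by
  have h : (A \ A : Set Λ) = ∅ := Set.sdiff_self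
  rw [AlmostSub, h, Cardinal.mk_eq_zero]
  exact Cardinal.aleph0_pos.trans_le hκ

theorem AlmostSub.trans (hκ : ℵ₀ ≤ κ) {A B C : Set Λ} (h1 : AlmostSub κ A B)
    (h2 : AlmostSub κ B C) : AlmostSub κ A C := by
  have h : (A \ C : Set Λ) ⊆ A \ B ∪ B \ C := by
    rintro x ⟨hx, hx'⟩
    by_cases hB : x ∈ B
    · exact Or.inr ⟨hB, hx'⟩
    · exact Or.inl ⟨hx, hB⟩
  exact ((Cardinal.mk_le_mk_of_subset h).trans (Cardinal.mk_union_le _ _)).trans_lt
    (Cardinal.add_lt_of_lt hκ h1 h2)

/-- The power set of `Λ`, where `A ≤ B` iff `A \ B` belongs to the ideal of the sets of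
cardinality less than the infinite cardinal `κ`. -/
def Pow (κ : Cardinal.{u}) (_ : ℵ₀ ≤ κ) (Λ : Type u) : Type u := Set Λ

instance : Preorder (Pow κ hκ Λ) where
  le A B := AlmostSub (Λ := Λ) κ A B
  le_refl A := AlmostSub.refl (Λ := Λ) hκ A
  le_trans A B C h1 h2 := AlmostSub.trans (Λ := Λ) hκ h1 h2

/-- The quotient Boolean algebra of the power set of `Λ` by the ideal of the sets of cardinality
less than `κ`, as a partial order. Its automorphisms are its order automorphisms. -/
abbrev Quo (κ : Cardinal.{u}) (hκ : ℵ₀ ≤ κ) (Λ : Type u) : Type u :=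
  Antisymmetrization (Pow κ hκ Λ) (· ≤ ·)

/-- The class of a set `A`. -/
def cls (hκ : ℵ₀ ≤ κ) (A : Set Λ) : Quo κ hκ Λ :=
  toAntisymmetrization (α := Pow κ hκ Λ) (· ≤ ·) A

/-- The automorphism is trivial: there is a function `e` from `Λ` to `Λ` such that the class of
each set `A` is mapped to the class of the preimage of `A` under `e`. -/
def IsTrivial (φ : Quo κ hκ Λ ≃o Quo κ hκ Λ) : Prop :=
  ∃ e : Λ → Λ, ∀ A : Set Λ, φ (cls hκ A) = cls hκ (e ⁻¹' A)

/-- The automorphism is trivial on `A`: there are a set `B` in the image of the class of `A` and a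
function `e` from `B` to `A` such that the class of each subset `X` of `A` is mapped to the class
of the preimage of `X` under `e`. -/
def IsTrivialOn (φ : Quo κ hκ Λ ≃o Quo κ hκ Λ) (A : Set Λ) : Prop :=
  ∃ B : Set Λ, φ (cls hκ A) = cls hκ B ∧
    ∃ e : B → A, ∀ X : Set A, φ (cls hκ (Subtype.val '' X)) = cls hκ (Subtype.val '' (e ⁻¹' X))

end Pool.Agent.W869.AV
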