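import Pool.Agent.W869.AV.Glob3

/-!
# The descending recursion

A function `g` splits the ground set into the sets where `g` is constant; `g'` is a function which
describes the images of these sets. On most members of a disjoint family of sets on which the
automorphism is induced by a function `E`, only few points `x` satisfy `g' (E x) < g x`.
-/

set_option autoImplicit false
set_option linter.unusedSectionVars false
set_option linter.unusedVariables false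
set_option linter.style.haveILetI false

universe u

namespace Pool.Agent.W869.AV

open Set
open Cardinal hiding univ

variable {κ : Cardinal.{u}} {Λ : Type u} [Fact (ℵ₀ ≤ κ)]

/-- A set defined by recursion along the values of `g`. -/
theorem exists_rec {K : Type u} [LinearOrder K] [WellFoundedLT K] (g g' : Λ → K) (E : Λ → Λ)
    (F : Set Λ → Set Λ) : ∃ A : Set Λ, ∀ x,
      x ∈ A ↔ g' (E x) < g x ∧ E x ∉ F {z ∈ A | g z = g' (E x)} := by
  let AA : K → Set Λ := (wellFounded_lt (α := K)).fix fun n ih =>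
    {x | g x = n ∧ ∃ h : g' (E x) < n, E x ∉ F (ih (g' (E x)) h)}
  have hAA : ∀ n, AA n = {x | g x = n ∧ ∃ h : g' (E x) < n, E x ∉ F (AA (g' (E x)))} := fun n =>
    (wellFounded_lt (α := K)).fix_eq _ n
  have hsub : ∀ n x, x ∈ AA n → g x = n := by
    intro n x hx
    rw [hAA] at hx
    exact hx.1
  have hA : ∀ m, {z ∈ {x | x ∈ AA (g x)} | g z = m} = AA m := by
    intro m
    ext z
    constructor
    · rintro ⟨h1, h2⟩
      exact h2 ▸ h1
    · intro hz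
      have h1 := hsub m z hz
      refine ⟨?_, h1⟩
      show z ∈ AA (g z)
      rw [h1]
      exact hz
  refine ⟨{x | x ∈ AA (g x)}, fun x => ?_⟩
  rw [hA]
  show x ∈ AA (g x) ↔ _
  rw [hAA (g x)]
  constructor
  · rintro ⟨-, h1, h2⟩
    exact ⟨h1, h2⟩
  · rintro ⟨h1, h2⟩
    exact ⟨rfl, h1, h2⟩

section

variable (hκ : ℵ₀ ≤ κ) {π : Aut κ Λ} {E : Λ → Λ}

include hκ

theorem inter_F (A B : Set Λ) : Sm κ ((π.F A ∩ π.F B) \ π.F (A ∩ B) : Set Λ) := by
  have h1 : Al κ (π.F A) (π.F (A ∩ B) ∪ π.F (A \ B)) := by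
    have h2 := π.union_le hκ (A ∩ B) (A \ B)
    rwa [inter_union_sdiff] at h2
  have h3 : Sm κ (π.F (A \ B) ∩ π.F B) := by
    refine π.disj hκ ?_
    have : (A \ B ∩ B : Set Λ) = ∅ := by
      ext x
      simp only [mem_inter_iff, mem_sdiff, mem_empty_iff_false, iff_false]
      tauto
    rw [this]
    exact sm_empty
  refine sm_mono ?_ (sm_union hκ h1 h3)
  rintro x ⟨⟨hA, hB⟩, hx⟩
  by_cases h : x ∈ π.F (A \ B)
  · exact Or.inr ⟨h, hB⟩
  · refine Or.inl ⟨hA, ?_⟩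
    rintro (h' | h')
    · exact hx h'
    · exact h h'

/-- Few members of a disjoint family meet a set of size at most `κ`. -/
theorem few_meet {S : Set (Set Λ)} (hd : ∀ Y ∈ S, ∀ Y' ∈ S, Y ≠ Y' → Disjoint Y Y') {U : Set Λ}
    (hU : #U ≤ κ) : #{Y ∈ S | (Y ∩ U).Nonempty} ≤ κ :=
  (card_family (fun Y hY Y' hY' => hd Y hY.1 Y' hY'.1) fun Y hY => hY.2).trans hU

/-- Sets with small traces on the images of a covering family of at most `κ` sets. -/
theorem card_of_trace {K : Type u} (hK : #K ≤ κ) (g : Λ → K) {Z : Set Λ}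
    (hZ : ∀ n, Sm κ (Z ∩ π.F {x | g x = n} : Set Λ)) : #(π.G Z) ≤ κ := by
  have h1 : ∀ n, Sm κ (π.G Z ∩ {x | g x = n} : Set Λ) := by
    intro n
    rw [π.small_iff hκ]
    have h2 : Al κ (π.F (π.G Z ∩ {x | g x = n})) Z :=
      ((π.le_iff _ _).1 (Al.of_subset inter_subset_left)).trans hκ (π.FG Z)
    have h3 : Al κ (π.F (π.G Z ∩ {x | g x = n})) (π.F {x | g x = n}) :=
      (π.le_iff _ _).1 (Al.of_subset inter_subset_right)
    refine sm_mono ?_ (sm_union hκ (sm_union hκ h2 h3) (hZ n))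
    intro x hx
    by_cases hxZ : x ∈ Z
    · by_cases hxF : x ∈ π.F {x | g x = n}
      · exact Or.inr ⟨hxZ, hxF⟩
      · exact Or.inl (Or.inr ⟨hx, hxF⟩)
    · exact Or.inl (Or.inl ⟨hx, hxZ⟩)
  refine (Cardinal.mk_le_mk_of_subset (t := ⋃ n, (π.G Z ∩ {x | g x = n} : Set Λ)) ?_).trans
    (Helper669.KDelta.small_iUnion hκ hK _ fun n => (h1 n).le)
  intro x hx
  exact mem_iUnion.2 ⟨g x, hx, rfl⟩

/-- The main lemma. -/
theorem few_down {K : Type u} [LinearOrder K] [WellFoundedLT K] {g g' : Λ → K} {N : Set Λ}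
    (ha : ∀ y, y ∉ N → y ∈ π.F {x | g x = g' y})
    (hb : ∀ Z : K → Set Λ, (∀ m, Sm κ (Z m)) → (∀ m, ∀ y ∈ Z m, g' y = m ∧ y ∉ N) →
      #(π.G (N ∪ ⋃ m, Z m)) ≤ κ)
    {S : Set (Set Λ)} (hd : ∀ Y ∈ S, ∀ Y' ∈ S, Y ≠ Y' → Disjoint Y Y')
    (hE : ∀ Y ∈ S, Good π E Y) :
    #{Y ∈ S | ¬ Sm κ {x ∈ Y | g' (E x) < g x}} ≤ κ := by
  obtain ⟨A, hA⟩ := exists_rec g g' E π.F
  let Z : K → Set Λ := fun m =>
    {y | g' y = m ∧ y ∉ N ∧ ¬ (y ∈ π.F A ↔ y ∈ π.F {z ∈ A | g z = m})}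
  have hZs : ∀ m, Sm κ (Z m) := by
    intro m
    have h1 : Al κ (π.F {z ∈ A | g z = m}) (π.F A) :=
      (π.le_iff _ _).1 (Al.of_subset fun x hx => hx.1)
    have h2 : Sm κ ((π.F A ∩ π.F {x | g x = m}) \ π.F (A ∩ {x | g x = m}) : Set Λ) :=
      inter_F hκ A {x | g x = m}
    refine sm_mono ?_ (sm_union hκ h1 h2)
    rintro y ⟨hy, hyN, hne⟩
    have h3 : y ∈ π.F {x | g x = m} := hy ▸ ha y hyN
    by_cases h4 : y ∈ π.F A
    · refine Or.inr ⟨⟨h4, h3⟩, fun h5 => hne ⟨fun _ => h5, fun _ => h4⟩⟩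
    · by_cases h5 : y ∈ π.F {z ∈ A | g z = m}
      · exact Or.inl ⟨h5, h4⟩
      · exact (hne ⟨fun h => (h4 h).elim, fun h => (h5 h).elim⟩).elim
  have hU := hb Z hZs fun m y hy => ⟨hy.1, hy.2.1⟩
  refine le_trans (Cardinal.mk_le_mk_of_subset ?_) (few_meet hκ hd hU)
  rintro Y ⟨hY, hns⟩
  refine ⟨hY, ?_⟩
  by_contra hcon
  apply hns
  have h1 := (hE Y hY).side' hκ (N ∪ ⋃ m, Z m)
  have h2 := (hE Y hY).side hκ A
  refine sm_mono ?_ (sm_union hκ h1 h2)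
  rintro x ⟨hx, hlt⟩
  have h3 : x ∉ π.G (N ∪ ⋃ m, Z m) := fun h => hcon ⟨x, hx, h⟩
  by_cases h4 : E x ∈ N ∪ ⋃ m, Z m
  · exact Or.inl ⟨hx, fun h => h3 (h.2 h4)⟩
  · refine Or.inr ⟨hx, fun h5 => ?_⟩
    have h6 : E x ∉ N := fun h => h4 (Or.inl h)
    have h7 : E x ∈ π.F A ↔ E x ∈ π.F {z ∈ A | g z = g' (E x)} := by
      by_contra h8
      exact h4 (Or.inr (mem_iUnion.2 ⟨g' (E x), rfl, h6, h8⟩))
    have h8 := hA x
    by_cases h9 : x ∈ A
    · exact (h8.1 h9).2 (h7.1 (h5.1 h9))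
    · refine h9 (h8.2 ⟨hlt, fun h10 => h9 (h5.2 (h7.2 h10))⟩)

end

end Pool.Agent.W869.AV
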