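import Pool.Agent.W869.AV.Card

/-!
# Partitions into `κ` pieces

A partition of the ground set into `κ` pieces and the images of the pieces correspond to each other
along every inducing function, up to `κ` many exceptions.
-/

set_option autoImplicit false
set_option linter.unusedSectionVars false
set_option linter.unusedVariables false
set_option linter.style.haveILetI false

universe u

namespace Pool.Agent.W869.AV

open Set
open Cardinal hiding univ

variable {κ : Cardinal.{u}} {Λ : Type u} [Fact (ℵ₀ ≤ κ)]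

section

variable (hκ : ℵ₀ ≤ κ) {π : Aut κ Λ} {e E : Λ → Λ} {Y : Set Λ}

include hκ

theorem card_union {A B : Set Λ} (hA : #A ≤ κ) (hB : #B ≤ κ) : #(A ∪ B : Set Λ) ≤ κ :=
  (Cardinal.mk_union_le _ _).trans ((add_le_add hA hB).trans (Cardinal.add_eq_self hκ).le)

theorem card_al {A B : Set Λ} (h : Al κ A B) (hB : #B ≤ κ) : #A ≤ κ := by
  refine (Cardinal.mk_le_mk_of_subset (t := A \ B ∪ B) ?_).trans
    (card_union hκ (show #(A \ B : Set Λ) ≤ κ from h.le) hB)
  intro x hx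
  by_cases h : x ∈ B
  · exact Or.inr h
  · exact Or.inl ⟨hx, h⟩

/-- A description of the images of the pieces of a partition. -/
theorem exists_split (hπ : Loc π) {K : Type u} (hK : #K ≤ κ) (g : Λ → K) :
    ∃ (g' : Λ → K) (N : Set Λ), #N ≤ κ ∧
      ∀ y, y ∉ N → ∀ n, g' y = n ↔ y ∈ π.F {x | g x = n} := by
  classical
  let R : Set Λ := {y | ∀ n, y ∉ π.F {x | g x = n}}
  let O : Set Λ := ⋃ p : K × K, {y | p.1 ≠ p.2 ∧ y ∈ π.F {x | g x = p.1} ∩ π.F {x | g x = p.2}}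
  have hO : #O ≤ κ := by
    refine Helper669.KDelta.small_iUnion hκ ?_ _ fun p => ?_
    · rw [Cardinal.mk_prod, Cardinal.lift_id]
      exact (mul_le_mul' hK hK).trans (Cardinal.mul_eq_self hκ).le
    · by_cases hp : p.1 = p.2
      · have : {y | p.1 ≠ p.2 ∧ y ∈ π.F {x | g x = p.1} ∩ π.F {x | g x = p.2}} = ∅ := by
          ext y
          simp [hp]
        rw [this, Cardinal.mk_eq_zero]
        exact zero_le
      · have h1 : Sm κ (π.F {x | g x = p.1} ∩ π.F {x | g x = p.2} : Set Λ) := by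
          refine π.disj hκ ?_
          have : ({x | g x = p.1} ∩ {x | g x = p.2} : Set Λ) = ∅ := by
            ext x
            simp only [mem_inter_iff, mem_ofPred_eq, mem_empty_iff_false, iff_false, not_and]
            intro h1 h2
            exact hp (h1 ▸ h2)
          rw [this]
          exact sm_empty
        exact (Cardinal.mk_le_mk_of_subset fun y hy => hy.2).trans h1.le
  have hR : #R ≤ κ := by
    have h1 : #(π.G R) ≤ κ := by
      refine card_of_trace hκ hK g fun n => ?_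
      have : (R ∩ π.F {x | g x = n} : Set Λ) = ∅ := by
        ext y
        simp only [mem_inter_iff, mem_empty_iff_false, iff_false, not_and]
        exact fun h => h n
      rw [this]
      exact sm_empty
    exact card_al hκ (π.FG' R) (card_F hκ hπ h1)
  refine ⟨fun y => if h : ∃ n, y ∈ π.F {x | g x = n} then h.choose else g y, R ∪ O,
    card_union hκ hR hO, fun y hy n => ?_⟩
  have h1 : ∃ n, y ∈ π.F {x | g x = n} := by
    by_contra h
    push Not at h
    exact hy (Or.inl h)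
  show (if h : ∃ n, y ∈ π.F {x | g x = n} then h.choose else g y) = n ↔ _
  rw [dif_pos h1]
  constructor
  · intro h
    have h2 := h1.choose_spec
    rwa [h] at h2
  · intro h
    by_contra h2
    exact hy (Or.inr (mem_iUnion.2 ⟨(h1.choose, n), h2, h1.choose_spec, h⟩))

/-- The inverse automorphism is induced by the inverse function. -/
theorem Good.symm (h : Good π e Y) {e' : Λ → Λ} (he' : ∀ x ∈ Y, e' (e x) = x) :
    Good (π.symm hκ) e' (e '' Y) := by
  intro B hB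
  have h1 : e' '' B ⊆ Y := by
    rintro _ ⟨y, hy, rfl⟩
    obtain ⟨x, hx, rfl⟩ := hB hy
    rw [he' x hx]
    exact hx
  have h2 : e '' (e' '' B) = B := by
    rw [Set.image_image]
    ext y
    constructor
    · rintro ⟨z, hz, rfl⟩
      obtain ⟨x, hx, rfl⟩ := hB hz
      show e (e' (e x)) ∈ B
      rw [he' x hx]
      exact hz
    · intro hy
      refine ⟨y, hy, ?_⟩
      obtain ⟨x, hx, rfl⟩ := hB hy
      show e (e' (e x)) = e x
      rw [he' x hx]
  have h3 := h _ h1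
  rw [h2] at h3
  constructor
  · show Al κ (π.G B) (e' '' B)
    rw [π.le_iff]
    exact (π.FG B).trans hκ h3.2
  · show Al κ (e' '' B) (π.G B)
    rw [π.le_iff]
    exact h3.1.trans hκ (π.FG' B)

theorem few_up (hπ : Loc π) {K : Type u} (hK : #K ≤ κ) [LinearOrder K] [WellFoundedLT K]
    {g g' : Λ → K} {N : Set Λ} (hN : #N ≤ κ)
    (hg : ∀ y, y ∉ N → ∀ n, g' y = n ↔ y ∈ π.F {x | g x = n})
    {S : Set (Set Λ)} (hd : ∀ Y ∈ S, ∀ Y' ∈ S, Y ≠ Y' → Disjoint Y Y')
    (hE : ∀ Y ∈ S, Good π E Y) (hinj : InjOn E (⋃₀ S)) :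
    #{Y ∈ S | ¬ Sm κ {x ∈ Y | g x < g' (E x)}} ≤ κ := by
  classical
  obtain ⟨E', hE'⟩ : ∃ E' : Λ → Λ, ∀ x ∈ ⋃₀ S, E' (E x) = x := by
    refine ⟨fun y => if h : ∃ x ∈ ⋃₀ S, E x = y then h.choose else y, fun x hx => ?_⟩
    have h1 : ∃ x' ∈ ⋃₀ S, E x' = E x := ⟨x, hx, rfl⟩
    show (if h : ∃ x' ∈ ⋃₀ S, E x' = E x then h.choose else E x) = x
    rw [dif_pos h1]
    exact hinj h1.choose_spec.1 hx h1.choose_spec.2
  have hsub : ∀ Y ∈ S, Y ⊆ ⋃₀ S := fun Y hY => subset_sUnion_of_mem hY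
  let N₁ : Set Λ := {y | y ∉ π.G {x | g' x = g y}}
  have hN₁ : #N₁ ≤ κ := by
    have hDn : ∀ n, #({y | g y = n} \ π.G {x | g' x = n} : Set Λ) ≤ κ := by
      intro n
      refine card_al hκ (B := π.G N) ?_ (card_G hκ hπ hN)
      rw [π.le_iff]
      refine Al.trans hκ ?_ (π.FG' N)
      let D : Set Λ := {y | g y = n} \ π.G {x | g' x = n}
      have h1 : Al κ (π.F D) (π.F {y | g y = n}) :=
        (π.le_iff _ _).1 (Al.of_subset sdiff_subset)
      have h2 : Sm κ (π.F D ∩ π.F (π.G {x | g' x = n}) : Set Λ) := by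
        refine π.disj hκ ?_
        have : (D ∩ π.G {x | g' x = n} : Set Λ) = ∅ := sdiff_inter_self
        rw [this]
        exact sm_empty
      have h3 := π.FG' {x | g' x = n}
      refine sm_mono ?_ (sm_union hκ h1 (sm_union hκ h2 h3))
      rintro y ⟨hy, hyN⟩
      by_cases h4 : y ∈ π.F {y | g y = n}
      · have h5 : g' y = n := (hg y hyN n).2 h4
        by_cases h6 : y ∈ π.F (π.G {x | g' x = n})
        · exact Or.inr (Or.inl ⟨hy, h6⟩)
        · exact Or.inr (Or.inr ⟨h5, h6⟩)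
      · exact Or.inl ⟨hy, h4⟩
    refine (Cardinal.mk_le_mk_of_subset
      (t := ⋃ n, ({y | g y = n} \ π.G {x | g' x = n} : Set Λ)) ?_).trans
      (Helper669.KDelta.small_iUnion hκ hK _ hDn)
    intro y hy
    exact mem_iUnion.2 ⟨g y, rfl, hy⟩
  have h1 := few_down (π := π.symm hκ) (E := E') hκ (g := g') (g' := g) (N := N₁)
    (fun y hy => not_not.1 hy) (fun Z hZ _ => card_F hκ hπ (card_union hκ hN₁
      (Helper669.KDelta.small_iUnion hκ hK _ fun m => (hZ m).le)))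
    (S := (fun Y => E '' Y) '' S) (by
      rintro _ ⟨Y, hY, rfl⟩ _ ⟨Y', hY', rfl⟩ hne
      have h2 : Y ≠ Y' := fun h => hne (h ▸ rfl)
      refine Set.disjoint_left.2 ?_
      rintro _ ⟨x, hx, rfl⟩ ⟨x', hx', heq⟩
      have h3 : x' = x := hinj (hsub Y' hY' hx') (hsub Y hY hx) heq
      exact Set.disjoint_left.1 (hd Y hY Y' hY' h2) hx (h3 ▸ hx')) (by
      rintro _ ⟨Y, hY, rfl⟩
      exact (hE Y hY).symm hκ fun x hx => hE' x (hsub Y hY hx))
  refine le_trans ?_ h1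
  refine Cardinal.mk_le_of_injective (f := fun Y :
    {Y ∈ S | ¬ Sm κ {x ∈ Y | g x < g' (E x)}} => (⟨E '' Y.1, ⟨Y.1, Y.2.1, rfl⟩, fun h => ?_⟩ :
    {Y ∈ (fun Y => E '' Y) '' S | ¬ Sm κ {x ∈ Y | g (E' x) < g' x}})) ?_
  · apply Y.2.2
    have h2 : InjOn E {x ∈ Y.1 | g x < g' (E x)} := hinj.mono fun x hx => hsub _ Y.2.1 hx.1
    have h3 : #(E '' {x ∈ Y.1 | g x < g' (E x)}) = #{x ∈ Y.1 | g x < g' (E x)} :=
      Cardinal.mk_image_eq_of_injOn _ _ h2
    rw [Sm, ← h3]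
    refine sm_mono ?_ h
    rintro _ ⟨x, ⟨hx, hx'⟩, rfl⟩
    refine ⟨⟨x, hx, rfl⟩, ?_⟩
    rw [hE' x (hsub _ Y.2.1 hx)]
    exact hx'
  · intro Y Y' heq
    have h2 : E '' Y.1 = E '' Y'.1 := congrArg Subtype.val heq
    exact Subtype.ext ((hinj.image_eq_image_iff (hsub _ Y.2.1) (hsub _ Y'.2.1)).1 h2)

/-- On most members of a disjoint family the values of `g` and `g'` agree. -/
theorem few_exact (hπ : Loc π) {K : Type u} (hK : #K ≤ κ) [LinearOrder K] [WellFoundedLT K]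
    {g g' : Λ → K} {N : Set Λ} (hN : #N ≤ κ)
    (hg : ∀ y, y ∉ N → ∀ n, g' y = n ↔ y ∈ π.F {x | g x = n})
    {S : Set (Set Λ)} (hd : ∀ Y ∈ S, ∀ Y' ∈ S, Y ≠ Y' → Disjoint Y Y')
    (hE : ∀ Y ∈ S, Good π E Y) (hinj : InjOn E (⋃₀ S)) :
    #{Y ∈ S | ¬ Sm κ {x ∈ Y | g' (E x) ≠ g x}} ≤ κ := by
  have h1 := few_up hκ hπ hK hN hg hd hE hinj
  have h2 := few_down hκ (g := g) (g' := g') (N := N) (fun y hy => (hg y hy _).1 rfl)
    (fun Z hZ _ => card_G hκ hπ (card_union hκ hN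
      (Helper669.KDelta.small_iUnion hκ hK _ fun m => (hZ m).le))) hd hE
  refine (Cardinal.mk_le_mk_of_subset (t := {Y ∈ S | ¬ Sm κ {x ∈ Y | g x < g' (E x)}} ∪
    {Y ∈ S | ¬ Sm κ {x ∈ Y | g' (E x) < g x}}) ?_).trans ((Cardinal.mk_union_le _ _).trans
    ((add_le_add h1 h2).trans (Cardinal.add_eq_self hκ).le))
  rintro Y ⟨hY, hYs⟩
  by_cases h3 : Sm κ {x ∈ Y | g x < g' (E x)}
  · refine Or.inr ⟨hY, fun h4 => hYs (sm_mono ?_ (sm_union hκ h3 h4))⟩
    rintro x ⟨hx, hne⟩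
    rcases lt_or_gt_of_ne hne with h | h
    · exact Or.inr ⟨hx, h⟩
    · exact Or.inl ⟨hx, h⟩
  · exact Or.inl ⟨hY, h3⟩

end

end Pool.Agent.W869.AV
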