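import Pool.Agent.W869.AV.Glob

/-!
# Preimages and disjoint families
-/

set_option autoImplicit false
set_option linter.unusedSectionVars false
set_option linter.unusedVariables false
set_option linter.style.haveILetI false

universe u

namespace Pool.Agent.W869.AV

open Set
open Cardinal hiding univ

variable {κ : Cardinal.{u}} {Λ : Type u} [Fact (ℵ₀ ≤ κ)]

section Resp

variable (hκ : ℵ₀ ≤ κ) {π : Aut κ Λ} {e e' : Λ → Λ} {X Y : Set Λ}

include hκ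

/-- The preimages of sets. -/
theorem Good.side' (h : Good π e X) (B : Set Λ) :
    Sm κ {x ∈ X | ¬ (x ∈ π.G B ↔ e x ∈ B)} := by
  have h1 := h.side hκ (π.G B)
  have h2 : Sm κ {x ∈ X | e x ∈ π.F (π.G B) \ B} := by
    refine h.small hκ (fun x hx => hx.1) (sm_mono ?_ (π.FG B))
    rintro _ ⟨x, hx, rfl⟩
    exact hx.2
  have h3 : Sm κ {x ∈ X | e x ∈ B \ π.F (π.G B)} := by
    refine h.small hκ (fun x hx => hx.1) (sm_mono ?_ (π.FG' B))
    rintro _ ⟨x, hx, rfl⟩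
    exact hx.2
  refine sm_mono ?_ (sm_union hκ h1 (sm_union hκ h2 h3))
  rintro x ⟨hx, hx'⟩
  by_cases ha : x ∈ π.G B ↔ e x ∈ π.F (π.G B)
  · by_cases hB : e x ∈ B
    · by_cases hF : e x ∈ π.F (π.G B)
      · exact (hx' ⟨fun _ => hB, fun _ => ha.2 hF⟩).elim
      · exact Or.inr (Or.inr ⟨hx, hB, hF⟩)
    · by_cases hF : e x ∈ π.F (π.G B)
      · exact Or.inr (Or.inl ⟨hx, hF, hB⟩)
      · exact (hx' ⟨fun h => (hF (ha.1 h)).elim, fun h => (hB h).elim⟩).elim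
  · exact Or.inl ⟨hx, ha⟩

end Resp

/-! ### Disjoint families -/

/-- Maximal disjoint families of subsets of `X` with the property `Q`. -/
theorem exists_family (Q : Set Λ → Prop) (X : Set Λ) (hQ : ∀ Y, Q Y → Y.Nonempty) :
    ∃ S : Set (Set Λ), (∀ Y ∈ S, Y ⊆ X ∧ Q Y) ∧
      (∀ Y ∈ S, ∀ Y' ∈ S, Y ≠ Y' → Disjoint Y Y') ∧ ∀ Y, Q Y → Y ⊆ X \ ⋃₀ S → False := by
  obtain ⟨S, hS⟩ := zorn_subset
    {S : Set (Set Λ) | (∀ Y ∈ S, Y ⊆ X ∧ Q Y) ∧ S.Pairwise Disjoint} (by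
    intro c hc hchain
    refine ⟨⋃₀ c, ⟨?_, ?_⟩, fun s hs => subset_sUnion_of_mem hs⟩
    · rintro Y ⟨s, hs, hY⟩
      exact (hc hs).1 Y hY
    · exact (pairwise_sUnion hchain.directedOn).2 fun s hs => (hc hs).2)
  refine ⟨S, hS.prop.1, fun Y hY Y' hY' hne => hS.prop.2 hY hY' hne, fun Y hY hYX => ?_⟩
  have hd : ∀ Y' ∈ S, Disjoint Y Y' := fun Y' hY' => Set.disjoint_left.2 fun x hx hx' =>
    (hYX hx).2 ⟨Y', hY', hx'⟩
  have h1 : Y ∈ S := by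
    refine hS.le_of_ge (y := insert Y S) ⟨?_, ?_⟩ (subset_insert Y S) (mem_insert Y S)
    · rintro Y' (rfl | hY')
      · exact ⟨fun x hx => (hYX hx).1, hY⟩
      · exact hS.prop.1 Y' hY'
    · rw [pairwise_insert]
      exact ⟨hS.prop.2, fun Y' hY' _ => ⟨hd Y' hY', (hd Y' hY').symm⟩⟩
  obtain ⟨x, hx⟩ := hQ Y hY
  exact Set.disjoint_left.1 (hd Y h1) hx hx

/-- A disjoint family of sets meeting `U` has at most `|U|` members. -/
theorem card_family {S : Set (Set Λ)} {U : Set Λ}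
    (hd : ∀ Y ∈ S, ∀ Y' ∈ S, Y ≠ Y' → Disjoint Y Y') (hU : ∀ Y ∈ S, (Y ∩ U).Nonempty) :
    #S ≤ #U := by
  choose f hf using fun Y : S => hU Y.1 Y.2
  refine Cardinal.mk_le_of_injective (f := fun Y : S => (⟨f Y, (hf Y).2⟩ : U)) ?_
  intro Y Y' heq
  by_contra hne
  have h1 : f Y = f Y' := congrArg Subtype.val heq
  exact Set.disjoint_left.1 (hd Y.1 Y.2 Y'.1 Y'.2 fun h => hne (Subtype.ext h)) (hf Y).1
    (h1 ▸ (hf Y').1)

theorem card_sUnion {S : Set (Set Λ)} {c : Cardinal.{u}} (hc : ∀ Y ∈ S, #Y ≤ c) :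
    #(⋃₀ S : Set Λ) ≤ #S * c := by
  rw [sUnion_eq_iUnion]
  refine (Cardinal.mk_iUnion_le _).trans ?_
  have h1 : (⨆ Y : S, #(Y.1 : Set Λ)) ≤ c := ciSup_le' fun Y => hc Y.1 Y.2
  exact mul_le_mul_right h1 _

end Pool.Agent.W869.AV
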