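import Pool.Agent.W869.AV.Exact

/-!
# Automorphisms which are trivial on the sets of size `κ`
-/

set_option autoImplicit false
set_option linter.unusedSectionVars false
set_option linter.unusedVariables false
set_option linter.style.haveILetI false

universe u

namespace Pool.Agent.W869.AV

open Set
open Cardinal hiding univ

variable {κ : Cardinal.{u}} {Λ : Type u} [Fact (ℵ₀ ≤ κ)]

section

variable (hκ : ℵ₀ ≤ κ) {π : Aut κ Λ} {E : Λ → Λ}

include hκ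

/-- A maximal family of disjoint sets with disjoint images. -/
theorem exists_max (π : Aut κ Λ) (P : Λ → Λ → Prop) : ∃ (S : Set (Set Λ)) (E : Λ → Λ),
    (∀ Y ∈ S, #Y = κ ∧ Good π E Y ∧ ∀ x ∈ Y, P x (E x)) ∧
    (∀ Y ∈ S, ∀ Y' ∈ S, Y ≠ Y' → Disjoint Y Y') ∧ InjOn E (⋃₀ S) ∧
    ∀ (Y : Set Λ) (e : Λ → Λ), #Y = κ → Good π e Y → InjOn e Y → (∀ x ∈ Y, P x (e x)) →
      (∀ x ∈ Y, x ∉ ⋃₀ S) → (∀ x ∈ Y, e x ∉ E '' ⋃₀ S) → False := by
  classical
  obtain ⟨S, hS⟩ := zorn_subset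
    {S : Set (Set Λ × (Λ → Λ)) | (∀ p ∈ S, #p.1 = κ ∧ Good π p.2 p.1 ∧ InjOn p.2 p.1 ∧
      ∀ x ∈ p.1, P x (p.2 x)) ∧
      S.Pairwise fun p q => Disjoint p.1 q.1 ∧ Disjoint (p.2 '' p.1) (q.2 '' q.1)} (by
    intro c hc hchain
    refine ⟨⋃₀ c, ⟨?_, ?_⟩, fun s hs => subset_sUnion_of_mem hs⟩
    · rintro Y ⟨s, hs, hY⟩
      exact (hc hs).1 Y hY
    · exact (pairwise_sUnion hchain.directedOn).2 fun s hs => (hc hs).2)
  have hdis : ∀ p ∈ S, ∀ q ∈ S, p ≠ q →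
      Disjoint p.1 q.1 ∧ Disjoint (p.2 '' p.1) (q.2 '' q.1) :=
    fun p hp q hq hne => hS.prop.2 hp hq hne
  let E : Λ → Λ := fun x => if h : ∃ p ∈ S, x ∈ p.1 then h.choose.2 x else x
  have hE : ∀ p ∈ S, ∀ x ∈ p.1, E x = p.2 x := by
    intro p hp x hx
    have h1 : ∃ p ∈ S, x ∈ p.1 := ⟨p, hp, hx⟩
    show (if h : ∃ p ∈ S, x ∈ p.1 then h.choose.2 x else x) = p.2 x
    rw [dif_pos h1]
    have h2 : h1.choose = p := by
      by_contra hne
      exact Set.disjoint_left.1 (hdis _ h1.choose_spec.1 _ hp hne).1 h1.choose_spec.2 hx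
    rw [h2]
  have hU : ∀ x, x ∈ ⋃₀ (Prod.fst '' S) ↔ ∃ p ∈ S, x ∈ p.1 := by
    intro x
    constructor
    · rintro ⟨_, ⟨p, hp, rfl⟩, hx⟩
      exact ⟨p, hp, hx⟩
    · rintro ⟨p, hp, hx⟩
      exact ⟨p.1, ⟨p, hp, rfl⟩, hx⟩
  refine ⟨Prod.fst '' S, E, ?_, ?_, ?_, ?_⟩
  · rintro _ ⟨p, hp, rfl⟩
    obtain ⟨h1, h2, -, h3⟩ := hS.prop.1 p hp
    refine ⟨h1, h2.congr hκ (sm_mono (t := ∅) ?_ sm_empty), fun x hx => ?_⟩
    · rintro x ⟨hx, hx'⟩
      exact hx' (hE p hp x hx).symm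
    · rw [hE p hp x hx]
      exact h3 x hx
  · rintro _ ⟨p, hp, rfl⟩ _ ⟨q, hq, rfl⟩ hne
    exact (hdis p hp q hq fun h => hne (h ▸ rfl)).1
  · intro x hx y hy hxy
    obtain ⟨p, hp, hx⟩ := (hU x).1 hx
    obtain ⟨q, hq, hy⟩ := (hU y).1 hy
    rw [hE p hp x hx, hE q hq y hy] at hxy
    by_cases hpq : p = q
    · subst hpq
      exact (hS.prop.1 p hp).2.2.1 hx hy hxy
    · exact (Set.disjoint_left.1 (hdis p hp q hq hpq).2 ⟨x, hx, rfl⟩ ⟨y, hy, hxy.symm⟩).elim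
  · intro Y e h1 h2 h3 h4 h5 h6
    have hne : Y.Nonempty := by
      by_contra hcon
      rw [not_nonempty_iff_eq_empty] at hcon
      apply not_small_of h1
      rw [hcon]
      exact sm_empty
    have hd : ∀ q ∈ S, Disjoint Y q.1 ∧ Disjoint (e '' Y) (q.2 '' q.1) := by
      intro q hq
      refine ⟨Set.disjoint_left.2 fun x hx hx' => h5 x hx ((hU x).2 ⟨q, hq, hx'⟩),
        Set.disjoint_left.2 ?_⟩
      rintro _ ⟨x, hx, rfl⟩ ⟨y, hy, hxy⟩
      refine h6 x hx ⟨y, (hU y).2 ⟨q, hq, hy⟩, ?_⟩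
      rw [hE q hq y hy, hxy]
    have h7 : (Y, e) ∈ S := by
      refine hS.le_of_ge (y := insert (Y, e) S) ⟨?_, ?_⟩ (subset_insert _ S) (mem_insert _ S)
      · rintro p (rfl | hp)
        · exact ⟨h1, h2, h3, h4⟩
        · exact hS.prop.1 p hp
      · rw [pairwise_insert]
        exact ⟨hS.prop.2, fun q hq _ => ⟨hd q hq, (hd q hq).1.symm, (hd q hq).2.symm⟩⟩
    obtain ⟨x, hx⟩ := hne
    exact Set.disjoint_left.1 (hd _ h7).1 hx hx

/-- There are only few disjoint sets with disjoint images where coordinates are not respected. -/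
theorem few_members (hπ : Loc π) {M : Type u} [Nonempty M] (hM : #M ≤ κ) (T : Λ → Set M)
    {S : Set (Set Λ)}
    (hS : ∀ Y ∈ S, #Y = κ ∧ Good π E Y ∧ ∀ x ∈ Y, Sc π T (E x) ≠ T x)
    (hd : ∀ Y ∈ S, ∀ Y' ∈ S, Y ≠ Y' → Disjoint Y Y') (hinj : InjOn E (⋃₀ S)) : #S ≤ κ := by
  classical
  have h1 : ∀ x, ∃ ν : M, Sc π T (E x) ≠ T x → ¬ (ν ∈ Sc π T (E x) ↔ ν ∈ T x) := by
    intro x
    by_cases h : Sc π T (E x) = T x
    · exact ⟨Classical.arbitrary M, fun h' => (h' h).elim⟩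
    · by_contra hcon
      push Not at hcon
      exact h (Set.ext fun ν => (hcon ν).2)
  choose ν hν using h1
  have h2 : #(M × Bool) ≤ #(κ.ord.ToType) := by
    have h3 : #(M × Bool) ≤ κ * κ := by
      rw [Cardinal.mk_prod, Cardinal.lift_uzero]
      refine mul_le_mul' hM ?_
      refine le_trans ?_ hκ
      simp only [Cardinal.mk_fintype, Fintype.card_bool, Cardinal.lift_natCast]
      exact (Cardinal.natCast_lt_aleph0 (n := 2)).le
    rw [Cardinal.mk_ord_toType]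
    exact h3.trans (Cardinal.mul_eq_self hκ).le
  obtain ⟨c⟩ := h2
  let f : Λ → κ.ord.ToType := fun x => c (ν x, decide (ν x ∈ T x))
  have hK : #(κ.ord.ToType) ≤ κ := (Cardinal.mk_ord_toType κ).le
  obtain ⟨g', N, hN, hg⟩ := exists_split hκ hπ hK f
  have h4 := few_exact hκ hπ hK hN hg hd (fun Y hY => (hS Y hY).2.1) hinj
  let U₁ : Set Λ := ⋃ p : M × Bool,
    (π.F {z | f z = c p} \ π.F {z | p.1 ∈ T z ↔ p.2 = true} : Set Λ)
  let U₂ : Set Λ := ⋃ n : M, (π.F {z | n ∈ T z} ∩ π.F {z | n ∉ T z} : Set Λ)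
  have hU₁ : #U₁ ≤ κ := by
    have h5 : #(M × Bool) ≤ κ := (Cardinal.mk_le_of_injective c.injective).trans hK
    refine (Cardinal.mk_iUnion_le _).trans ?_
    refine (mul_le_mul' h5 (ciSup_le' fun p => ?_)).trans (Cardinal.mul_eq_self hκ).le
    have h6 : Al κ (π.F {z | f z = c p}) (π.F {z | p.1 ∈ T z ↔ p.2 = true}) := by
      refine (π.le_iff _ _).1 (Al.of_subset ?_)
      intro z hz
      have h7 : (ν z, decide (ν z ∈ T z)) = p := c.injective hz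
      rw [← h7]
      simp
    exact h6.le
  have hU₂ : #U₂ ≤ κ := by
    refine Helper669.KDelta.small_iUnion hκ hM _ fun n => ?_
    have h6 : Sm κ (π.F {z | n ∈ T z} ∩ π.F {z | n ∉ T z} : Set Λ) := by
      refine π.disj hκ ?_
      have : ({z | n ∈ T z} ∩ {z | n ∉ T z} : Set Λ) = ∅ := by
        ext z
        simp
      rw [this]
      exact sm_empty
    exact h6.le
  have hU : #(π.G (N ∪ (U₁ ∪ U₂))) ≤ κ := card_G hκ hπ (card_union hκ hN (card_union hκ hU₁ hU₂))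
  have h5 := few_meet hκ hd hU
  refine (Cardinal.mk_le_mk_of_subset (t := {Y ∈ S | ¬ Sm κ {x ∈ Y | g' (E x) ≠ f x}} ∪
    {Y ∈ S | (Y ∩ π.G (N ∪ (U₁ ∪ U₂))).Nonempty}) ?_).trans (card_union hκ h4 h5)
  intro Y hY
  by_cases h6 : Sm κ {x ∈ Y | g' (E x) ≠ f x}
  · refine Or.inr ⟨hY, ?_⟩
    by_contra h7
    have h8 := (hS Y hY).2.1.side' hκ (N ∪ (U₁ ∪ U₂))
    refine not_small_of (hS Y hY).1 (sm_mono ?_ (sm_union hκ h6 h8))
    intro x hx
    by_cases h9 : g' (E x) = f x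
    · refine Or.inr ⟨hx, fun h => h7 ⟨x, hx, h.2 ?_⟩⟩
      by_contra h10
      have h11 : E x ∉ N := fun h => h10 (Or.inl h)
      have h12 : E x ∉ U₁ := fun h => h10 (Or.inr (Or.inl h))
      have h13 : E x ∉ U₂ := fun h => h10 (Or.inr (Or.inr h))
      have h14 : E x ∈ π.F {z | f z = f x} := (hg _ h11 _).1 h9
      have h15 : E x ∈ π.F {z | ν x ∈ T z ↔ decide (ν x ∈ T x) = true} := by
        by_contra h16
        exact h12 (mem_iUnion.2 ⟨(ν x, decide (ν x ∈ T x)), h14, h16⟩)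
      have h16 := hν x ((hS Y hY).2.2 x hx)
      by_cases h17 : ν x ∈ T x
      · have h18 : {z | ν x ∈ T z ↔ decide (ν x ∈ T x) = true} = {z | ν x ∈ T z} := by
          ext z
          simp [h17]
        rw [h18] at h15
        exact h16 ⟨fun _ => h17, fun _ => h15⟩
      · have h18 : {z | ν x ∈ T z ↔ decide (ν x ∈ T x) = true} = {z | ν x ∉ T z} := by
          ext z
          simp [h17]
        rw [h18] at h15
        refine h16 ⟨fun h19 => ?_, fun h => (h17 h).elim⟩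
        exact (h13 (mem_iUnion.2 ⟨ν x, h19, h15⟩)).elim
    · exact Or.inl ⟨hx, h9⟩
  · exact Or.inl ⟨hY, h6⟩

/-- The main theorem. -/
theorem tr_univ (hπ : Loc π) {M : Type u} [Nonempty M] (hM : #M ≤ κ) (T : Λ → Set M)
    (hT : Function.Injective T) : Tr π univ := by
  classical
  obtain ⟨S, E, hS, hd, hinj, hmax⟩ := exists_max hκ π fun x y => Sc π T y ≠ T x
  have hSc : #S ≤ κ := few_members hκ hπ hM T hS hd hinj
  have hSU : #(⋃₀ S : Set Λ) ≤ κ := by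
    refine (card_sUnion fun Y hY => (hS Y hY).1.le).trans ?_
    exact (mul_le_mul_left hSc κ).trans (Cardinal.mul_eq_self hκ).le
  have hN : #(⋃₀ S ∪ π.G (E '' ⋃₀ S) : Set Λ) ≤ κ :=
    card_union hκ hSU (card_G hκ hπ (Cardinal.mk_image_le.trans hSU))
  refine Tr.of_remove hκ (N := ⋃₀ S ∪ π.G (E '' ⋃₀ S)) ?_ (hπ.le hκ hN)
  refine final_thread hκ T hπ hT.injOn ?_
  rintro Y hY ⟨hYc, e, he, hP⟩
  have h1 := he.side' hκ (E '' ⋃₀ S)
  let Y₁ : Set Λ := {x ∈ Y | e x ∉ E '' ⋃₀ S}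
  have h2 : ¬ Sm κ Y₁ := by
    intro h
    refine not_small_of hYc (sm_mono ?_ (sm_union hκ h h1))
    intro x hx
    by_cases h3 : e x ∈ E '' ⋃₀ S
    · exact Or.inr ⟨hx, fun h => (hY hx).2 (Or.inr (h.2 h3))⟩
    · exact Or.inl ⟨hx, h3⟩
  have h3 : ¬ Sm κ (e '' Y₁) := fun h => h2 (he.small hκ (fun x hx => hx.1) h)
  obtain ⟨C, hC, hCc⟩ := exists_sub h3
  choose! s hs hs' using fun y (hy : y ∈ C) => hC hy
  have h4 : InjOn s C := by
    intro y hy z hz heq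
    rw [← hs' y hy, ← hs' z hz, heq]
  have h5 : #(s '' C) = κ := by rw [Cardinal.mk_image_eq_of_injOn _ _ h4, hCc]
  have h6 : ∀ x ∈ s '' C, x ∈ Y₁ := by
    rintro _ ⟨y, hy, rfl⟩
    exact hs y hy
  refine hmax (s '' C) e h5 (he.mono fun x hx => (h6 x hx).1) ?_ (fun x hx => hP x (h6 x hx).1)
    (fun x hx h => (hY (h6 x hx).1).2 (Or.inl h)) fun x hx => (h6 x hx).2
  rintro _ ⟨y, hy, rfl⟩ _ ⟨z, hz, rfl⟩ heq
  rw [hs' y hy, hs' z hz] at heq
  rw [heq]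

/-- The main theorem, in terms of cardinalities. -/
theorem tr_of_card (hπ : Loc π) (hΛ : #Λ ≤ 2 ^ κ) : Tr π univ := by
  have h1 : #Λ ≤ #(Set κ.ord.ToType) := by
    rw [Cardinal.mk_set, Cardinal.mk_ord_toType]
    exact hΛ
  obtain ⟨T⟩ := h1
  haveI : Nonempty κ.ord.ToType := by
    rw [← Cardinal.mk_ne_zero_iff, Cardinal.mk_ord_toType]
    exact (Cardinal.aleph0_pos.trans_le hκ).ne'
  exact tr_univ hκ hπ (Cardinal.mk_ord_toType κ).le T T.injective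

end

end Pool.Agent.W869.AV
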