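import Pool.Agent.W869.AV.Main
import Pool.Agent.W869.AV.Defs

/-!
# Translation to automorphisms of the quotient
-/

set_option autoImplicit false
set_option linter.unusedSectionVars false
set_option linter.unusedVariables false

universe u

namespace Pool.Agent.W869.AV

open Set
open Cardinal hiding univ

variable {κ : Cardinal.{u}} {hκ : ℵ₀ ≤ κ} {Λ : Type u}

theorem exists_cls (q : Quo κ hκ Λ) : ∃ A : Set Λ, cls hκ A = q :=
  ⟨ofAntisymmetrization (α := Pow κ hκ Λ) (· ≤ ·) q,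
    toAntisymmetrization_ofAntisymmetrization _ q⟩

theorem cls_le_iff {A B : Set Λ} : cls hκ A ≤ cls hκ B ↔ Al κ A B := Iff.rfl

theorem cls_eq_iff {A B : Set Λ} : cls hκ A = cls hκ B ↔ Al κ A B ∧ Al κ B A := by
  rw [le_antisymm_iff, cls_le_iff, cls_le_iff]

theorem exists_aut (φ : Quo κ hκ Λ ≃o Quo κ hκ Λ) :
    ∃ ρ : Aut κ Λ, ∀ A, φ (cls hκ A) = cls hκ (ρ.F A) := by
  choose rep hrep using fun q : Quo κ hκ Λ => exists_cls q
  refine ⟨⟨fun A => rep (φ (cls hκ A)), fun B => rep (φ.symm (cls hκ B)), fun A B => ?_,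
    fun B => ?_, fun B => ?_⟩, fun A => (hrep _).symm⟩
  · rw [← cls_le_iff (hκ := hκ), ← cls_le_iff (hκ := hκ), hrep, hrep, φ.le_iff_le]
  · rw [← cls_le_iff (hκ := hκ), hrep, hrep, φ.apply_symm_apply]
  · rw [← cls_le_iff (hκ := hκ), hrep, hrep, φ.apply_symm_apply]

section

variable [Fact (ℵ₀ ≤ κ)] {φ : Quo κ hκ Λ ≃o Quo κ hκ Λ} {ρ : Aut κ Λ}

theorem tr_of_trivialOn (hρ : ∀ A, φ (cls hκ A) = cls hκ (ρ.F A)) {A : Set Λ}
    (h : IsTrivialOn φ A) : Tr ρ A := by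
  classical
  obtain ⟨B, hB, e, he⟩ := h
  rw [hρ, cls_eq_iff] at hB
  let p : Set Λ → Set Λ := fun X => {b | ∃ h : b ∈ B, (e ⟨b, h⟩ : Λ) ∈ X}
  have hp : ∀ X ⊆ A, Al κ (ρ.F X) (p X) ∧ Al κ (p X) (ρ.F X) := by
    intro X hX
    have h1 := he {x : A | x.1 ∈ X}
    have h2 : Subtype.val '' {x : A | x.1 ∈ X} = X := by
      ext x
      constructor
      · rintro ⟨y, hy, rfl⟩
        exact hy
      · intro hx
        exact ⟨⟨x, hX hx⟩, hx, rfl⟩
    have h3 : Subtype.val '' (e ⁻¹' {x : A | x.1 ∈ X}) = p X := by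
      ext b
      constructor
      · rintro ⟨y, hy, rfl⟩
        exact ⟨y.2, hy⟩
      · rintro ⟨hb, hb'⟩
        exact ⟨⟨b, hb⟩, hb', rfl⟩
    rw [h2, h3, hρ, cls_eq_iff] at h1
    exact h1
  have hpm : ∀ X X' : Set Λ, X ⊆ X' → p X ⊆ p X' := by
    rintro X X' hX b ⟨hb, hb'⟩
    exact ⟨hb, hX hb'⟩
  -- a section
  obtain ⟨s, hs⟩ : ∃ s : Λ → Λ, ∀ b : B, ∃ h : s (e b) ∈ B, e ⟨s (e b), h⟩ = e b := by
    refine ⟨fun a => if h : ∃ b : B, (e b : Λ) = a then (h.choose : B) else a, fun b => ?_⟩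
    have h1 : ∃ b' : B, (e b' : Λ) = e b := ⟨b, rfl⟩
    have h2 : (if h : ∃ b' : B, (e b' : Λ) = e b then ((h.choose : B) : Λ) else (e b : Λ)) =
      (h1.choose : B) := dif_pos h1
    have h3 : ∀ y : Λ, y = (h1.choose : B) → ∃ h : y ∈ B, e ⟨y, h⟩ = e b := by
      rintro _ rfl
      exact ⟨h1.choose.2, Subtype.ext h1.choose_spec⟩
    exact h3 _ h2
  -- the range
  let R : Set Λ := {a ∈ A | ∀ b : B, (e b : Λ) ≠ a}
  have hR : Sm κ R := by
    rw [ρ.small_iff hκ]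
    refine (hp R fun a ha => ha.1).1.small hκ ?_
    have : p R = ∅ := by
      ext b
      simp only [mem_empty_iff_false, iff_false]
      rintro ⟨hb, hb'⟩
      exact hb'.2 ⟨b, hb⟩ rfl
    rw [this]
    exact sm_empty
  let W : Set Λ := {b | ∃ h : b ∈ B, s (e ⟨b, h⟩) ≠ b}
  have hWB : W ⊆ B := fun b hb => hb.1
  have hW : Sm κ W := by
    -- a set mapped to `W`
    obtain ⟨X, hXA, hX1, hX2⟩ : ∃ X ⊆ A, Al κ W (p X) ∧ Al κ (p X) W := by
      have h1 : Al κ (ρ.G W) A := by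
        rw [ρ.le_iff]
        exact ((ρ.FG W).trans hκ (Al.of_subset hWB)).trans hκ hB.2
      have h2 : Al κ (ρ.G W) (ρ.G W ∩ A) := by
        refine sm_mono ?_ h1
        rintro x ⟨hx, hx'⟩
        exact ⟨hx, fun h => hx' ⟨hx, h⟩⟩
      have h3 := hp (ρ.G W ∩ A) inter_subset_right
      refine ⟨ρ.G W ∩ A, inter_subset_right, ?_, ?_⟩
      · exact ((ρ.FG' W).trans hκ ((ρ.le_iff _ _).1 h2)).trans hκ h3.1
      · exact (h3.2.trans hκ ((ρ.le_iff _ _).1 (Al.of_subset inter_subset_left))).trans hκ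
          (ρ.FG W)
    -- the points of the image of `W` which belong to `X`
    let D : Set Λ := {a | ∃ b : B, b.1 ∈ W ∧ b.1 ∈ p X ∧ (e b : Λ) = a}
    have hDA : D ⊆ A := by
      rintro _ ⟨b, -, -, rfl⟩
      exact (e b).2
    have hD : Sm κ D := by
      have h1 : s '' D ⊆ p X \ W := by
        rintro _ ⟨_, ⟨b, hb, ⟨hb1, hb2⟩, rfl⟩, rfl⟩
        obtain ⟨h2, h3⟩ := hs b
        refine ⟨⟨h2, ?_⟩, ?_⟩
        · rw [h3]
          exact hb2
        · rintro ⟨h4, h5⟩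
          apply h5
          rw [h3]
      have h2 : InjOn s D := by
        rintro _ ⟨b, -, -, rfl⟩ _ ⟨b', -, -, rfl⟩ heq
        obtain ⟨h3, h4⟩ := hs b
        obtain ⟨h5, h6⟩ := hs b'
        have h7 : (⟨s (e b), h3⟩ : B) = ⟨s (e b'), h5⟩ := Subtype.ext heq
        rw [← h4, ← h6, h7]
      have h3 : #(s '' D) = #D := Cardinal.mk_image_eq_of_injOn _ _ h2
      rw [Sm, ← h3]
      exact sm_mono h1 hX2
    have h1 : Sm κ (p D) := (hp D hDA).2.small hκ ((ρ.small_iff hκ D).1 hD)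
    refine sm_mono ?_ (sm_union hκ hX1 h1)
    intro b hb
    by_cases h2 : b ∈ p X
    · exact Or.inr ⟨hWB hb, ⟨b, hWB hb⟩, hb, h2, rfl⟩
    · exact Or.inl ⟨hb, h2⟩
  refine ⟨s, fun X hX => ?_⟩
  have h1 : Al κ (p X) (s '' X) := by
    refine sm_mono ?_ hW
    rintro b ⟨⟨hb, hb'⟩, hbs⟩
    exact ⟨hb, fun h => hbs ⟨_, hb', h⟩⟩
  have h2 : Al κ (s '' X) (p X) := by
    refine sm_mono ?_ (sm_image s hR)
    rintro _ ⟨⟨a, ha, rfl⟩, ha'⟩
    refine ⟨a, ⟨hX ha, ?_⟩, rfl⟩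
    rintro b rfl
    obtain ⟨h3, h4⟩ := hs b
    refine ha' ⟨h3, ?_⟩
    rw [h4]
    exact ha
  exact ⟨(hp X hX).1.trans hκ h1, h2.trans hκ (hp X hX).2⟩

theorem trivial_of_tr (hρ : ∀ A, φ (cls hκ A) = cls hκ (ρ.F A)) (h : Tr ρ Set.univ) :
    IsTrivial φ := by
  classical
  obtain ⟨e, he⟩ := h
  obtain ⟨s, hs⟩ : ∃ s : Λ → Λ, ∀ x, e (s (e x)) = e x := by
    refine ⟨fun y => if h : ∃ x, e x = y then h.choose else y, fun x => ?_⟩
    have h1 : ∃ x', e x' = e x := ⟨x, rfl⟩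
    show e (if h : ∃ x', e x' = e x then h.choose else e x) = e x
    rw [dif_pos h1]
    exact h1.choose_spec
  let W : Set Λ := {x | s (e x) ≠ x}
  have hW : Sm κ W := by
    let W' : Set Λ := s '' (e '' W)
    have h1 : e '' W' = e '' W := by
      ext y
      constructor
      · rintro ⟨_, ⟨_, ⟨x, hx, rfl⟩, rfl⟩, rfl⟩
        exact ⟨x, hx, (hs x).symm⟩
      · rintro ⟨x, hx, rfl⟩
        exact ⟨_, ⟨_, ⟨x, hx, rfl⟩, rfl⟩, hs x⟩
    have h2 : Sm κ (ρ.F W ∩ ρ.F W' : Set Λ) := by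
      refine ρ.disj hκ ?_
      have : (W ∩ W' : Set Λ) = ∅ := by
        ext y
        simp only [mem_inter_iff, mem_empty_iff_false, iff_false, not_and]
        rintro hy ⟨_, ⟨x, hx, rfl⟩, rfl⟩
        apply hy
        rw [hs]
      rw [this]
      exact sm_empty
    have h3 : Al κ (ρ.F W) (ρ.F W') := by
      have h4 := (he W' (subset_univ _)).2
      rw [h1] at h4
      exact (he W (subset_univ _)).1.trans hκ h4
    rw [ρ.small_iff hκ]
    refine sm_mono ?_ (sm_union hκ h2 h3)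
    intro y hy
    by_cases h4 : y ∈ ρ.F W'
    · exact Or.inl ⟨hy, h4⟩
    · exact Or.inr ⟨hy, h4⟩
  have hR : Sm κ {y | ∀ x, e x ≠ y} := by
    have h1 : Al κ univ (e '' univ) :=
      ((ρ.FG' univ).trans hκ ((ρ.le_iff _ _).1 (Al.of_subset (subset_univ _)))).trans hκ
        (he univ subset_rfl).1
    refine sm_mono ?_ h1
    intro y hy
    refine ⟨mem_univ y, ?_⟩
    rintro ⟨x, -, hx⟩
    exact hy x hx
  refine ⟨s, fun A => ?_⟩
  rw [hρ, cls_eq_iff]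
  constructor
  · refine (he A (subset_univ A)).1.trans hκ ?_
    refine sm_mono ?_ (sm_image e hW)
    rintro _ ⟨⟨x, hx, rfl⟩, hx'⟩
    refine ⟨x, fun h => hx' ?_, rfl⟩
    show s (e x) ∈ A
    rw [h]
    exact hx
  · refine Al.trans hκ ?_ (he A (subset_univ A)).2
    refine sm_mono ?_ hR
    rintro y ⟨hy, hy'⟩ x rfl
    exact hy' ⟨s (e x), hy, hs x⟩

end

/-- The main theorem for automorphisms of the quotient. -/
theorem trivial_of_card (hΛ : #Λ ≤ 2 ^ κ) (φ : Quo κ hκ Λ ≃o Quo κ hκ Λ)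
    (h : ∀ A : Set Λ, #A = κ → IsTrivialOn φ A) : IsTrivial φ := by
  have : Fact (ℵ₀ ≤ κ) := ⟨hκ⟩
  obtain ⟨ρ, hρ⟩ := exists_aut φ
  exact trivial_of_tr hρ (tr_of_card hκ (fun A hA => tr_of_trivialOn hρ (h A hA)) hΛ)

end Pool.Agent.W869.AV
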